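import Pool.Agent.Y298.LC.Stm

/-!
# LC-NEST: nested loops of two rays and an arc
-/

set_option autoImplicit false

open Set Filter Metric MeasureTheory Topology Complex Bornology

namespace Pool.Agent.Y495.LC

open Pool.Agent.Y298.LC

theorem mem_Dom_ex {σ t : ℝ} (h : 0 < σ) : ex σ t ∈ Dom 0 := by
  have h1 : ‖ex σ t‖ = Real.exp σ := by
    rw [ex, Complex.norm_exp]
    simp
  show (0 : ℝ) < Real.log ‖ex σ t‖
  rw [h1, Real.log_exp]
  exact h

theorem enc_of_im {γ : ℝ → ℂ} {z : ℂ} (h : z ∈ im γ) : Enc γ z := by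
  rintro ⟨L, -, hL, -⟩
  obtain ⟨τ, hτ, rfl⟩ := h
  have := hL τ hτ
  rw [sub_self] at this
  exact Complex.exp_ne_zero _ this

/-- near a point outside the loop, `Enc` is constant -/
theorem enc_loc (hT : S_TOP) {γ : ℝ → ℂ} (hc : ContinuousOn γ (Icc 0 1)) (h01 : γ 0 = γ 1)
    {U : Set ℂ} (hU : IsOpen U) (hUi : Disjoint U (im γ)) {z : ℂ} (hz : z ∈ U) :
    ∃ r > 0, ball z r ⊆ U ∧ ∀ z' ∈ ball z r, (Enc γ z' ↔ Enc γ z) := by
  obtain ⟨r, hr, hb⟩ := Metric.isOpen_iff.1 hU z hz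
  have hpc : IsPreconnected (ball z r) := (convex_ball z r).isPreconnected
  have hd : Disjoint (ball z r) (im γ) := hUi.mono_left hb
  refine ⟨r, hr, hb, fun z' hz' => ⟨?_, ?_⟩⟩
  · exact hT.1 γ _ hc h01 hpc hd z' hz' z (mem_ball_self hr)
  · exact hT.1 γ _ hc h01 hpc hd z (mem_ball_self hr) z' hz'

theorem im_compact {γ : ℝ → ℂ} (hc : ContinuousOn γ (Icc 0 1)) : IsCompact (im γ) :=
  isCompact_Icc.image_of_continuousOn hc

theorem im_preconn {γ : ℝ → ℂ} (hc : ContinuousOn γ (Icc 0 1)) : IsPreconnected (im γ) :=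
  isPreconnected_Icc.image _ hc

theorem enc_closed (hT : S_TOP) {γ : ℝ → ℂ} (hc : ContinuousOn γ (Icc 0 1)) (h01 : γ 0 = γ 1) :
    IsClosed {z | Enc γ z} := by
  rw [← isOpen_compl_iff, Metric.isOpen_iff]
  intro z hz
  have hz' : ¬ Enc γ z := hz
  have hzi : z ∈ (im γ)ᶜ := fun h => hz' (enc_of_im h)
  obtain ⟨r, hr, hb, hE⟩ := enc_loc hT hc h01 (im_compact hc).isClosed.isOpen_compl
    disjoint_compl_left hzi
  refine ⟨r, hr, fun z' hz2 => ?_⟩
  show ¬ Enc γ z'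
  rw [hE z' hz2]
  exact hz'

theorem enc_bdd (hT : S_TOP) {γ : ℝ → ℂ} (hc : ContinuousOn γ (Icc 0 1)) (h01 : γ 0 = γ 1) :
    Bornology.IsBounded {z | Enc γ z} := by
  obtain ⟨r, hr⟩ := (im_compact hc).isBounded.subset_ball (0 : ℂ)
  refine isBounded_ball.subset (fun z hz => ?_) (s := {z | Enc γ z}) (t := ball (0 : ℂ) r)
  by_contra h
  exact hT.2.1 γ 0 z r hc h01 hr h hz

theorem enc_compact (hT : S_TOP) {γ : ℝ → ℂ} (hc : ContinuousOn γ (Icc 0 1)) (h01 : γ 0 = γ 1) :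
    IsCompact {z | Enc γ z} :=
  Metric.isCompact_of_isClosed_isBounded (enc_closed hT hc h01) (enc_bdd hT hc h01)

theorem clopen_bdd {B : Set ℂ} (hB : IsClopen B) (hb : Bornology.IsBounded B) : B = ∅ := by
  by_contra h
  have h1 : B = univ := hB.eq_univ (nonempty_iff_ne_empty.2 h)
  rw [h1] at hb
  exact NormedSpace.unbounded_univ ℝ ℂ hb

theorem enc_preconn_aux (hT : S_TOP) {γ : ℝ → ℂ} (hc : ContinuousOn γ (Icc 0 1))
    (h01 : γ 0 = γ 1) {t t' : Set ℂ} (ht : IsClosed t) (ht' : IsClosed t')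
    (hK : {z | Enc γ z} ⊆ t ∪ t') (hi : im γ ⊆ t)
    (he : ∀ z, Enc γ z → z ∈ t → z ∉ t') : {z | Enc γ z} ∩ t' = ∅ := by
  apply clopen_bdd
  · refine ⟨(enc_closed hT hc h01).inter ht', ?_⟩
    rw [Metric.isOpen_iff]
    rintro z ⟨hz, hzt⟩
    have hz1 : z ∈ tᶜ := fun h => he z hz h hzt
    obtain ⟨r, hr, hb, hE⟩ := enc_loc hT hc h01 ht.isOpen_compl
      (disjoint_compl_left.mono_right hi) hz1
    refine ⟨r, hr, fun z' hz' => ?_⟩
    have h1 : Enc γ z' := (hE z' hz').2 hz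
    exact ⟨h1, (hK h1).resolve_left (hb hz')⟩
  · exact (enc_bdd hT hc h01).subset inter_subset_left

theorem enc_preconn (hT : S_TOP) {γ : ℝ → ℂ} (hc : ContinuousOn γ (Icc 0 1))
    (h01 : γ 0 = γ 1) : IsPreconnected {z | Enc γ z} := by
  rw [isPreconnected_closed_iff]
  intro t t' ht ht' hK h1 h2
  by_contra h
  have he : ∀ z, Enc γ z → z ∈ t → z ∉ t' := fun z hz hzt hzt' => h ⟨z, hz, hzt, hzt'⟩
  have hi : im γ ⊆ {z | Enc γ z} := fun z hz => enc_of_im hz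
  rcases (isPreconnected_iff_subset_of_disjoint_closed.1 (im_preconn hc)) t t' ht ht'
    (hi.trans hK) (by
      ext z
      simp only [mem_inter_iff, mem_empty_iff_false, iff_false]
      rintro ⟨a, b, c⟩
      exact he z (hi a) b c) with h3 | h3
  · rw [enc_preconn_aux hT hc h01 ht ht' hK h3 he] at h2
    exact h2.ne_empty rfl
  · rw [enc_preconn_aux hT hc h01 ht' ht (by rwa [union_comm]) h3
      (fun z hz a b => he z hz b a)] at h1
    exact h1.ne_empty rfl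

/-- the points of the loop -/
theorem loop_cases {F : ℂ → ℂ} {bm bp s : ℝ} {γ : ℝ → ℂ} (h : SectLoop F 0 bm bp s γ)
    {τ : ℝ} (hτ : τ ∈ Icc (0 : ℝ) 1) :
    γ τ = γ 0 ∨ ∃ σ t, 0 < σ ∧ σ ≤ s ∧ γ τ = F (ex σ t) ∧ bm ≤ t ∧ t ≤ bp ∧
      (t = bm ∨ t = bp ∨ σ = s) := by
  have hs : 0 < s := h.hgs
  have hb := h.hb
  rcases eq_or_lt_of_le hτ.1 with h0 | h0
  · left
    rw [← h0]
  rcases eq_or_lt_of_le hτ.2 with h1 | h1
  · left
    rw [h1, h.closed]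
  right
  rcases le_or_gt τ (1 / 3) with h2 | h2
  · refine ⟨3 * τ * s, bm, by positivity, ?_, h.left τ ⟨h0.le, h2⟩ (by positivity), le_rfl, hb.le,
      Or.inl rfl⟩
    nlinarith
  rcases le_or_gt τ (2 / 3) with h3 | h3
  · refine ⟨s, bm + (3 * τ - 1) * (bp - bm), hs, le_rfl, h.mid τ ⟨h2.le, h3⟩, ?_, ?_,
      Or.inr (Or.inr rfl)⟩
    · nlinarith
    · nlinarith
  · have h4 : 0 < 3 * (1 - τ) * s := by
      have : 0 < 1 - τ := by linarith
      positivity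
    refine ⟨3 * (1 - τ) * s, bp, h4, ?_, h.right τ ⟨h3.le, h1.le⟩ h4, hb.le, le_rfl,
      Or.inr (Or.inl rfl)⟩
    nlinarith

theorem zero_notin {F : ℂ → ℂ} {bm bp s : ℝ} {γ : ℝ → ℂ} (h : SectLoop F 0 bm bp s γ) :
    γ 0 ∉ F '' Dom 0 :=
  h.leftlow 0 ⟨le_rfl, by norm_num⟩ (by simp)

theorem notin_im {F : ℂ → ℂ} {bm bp s : ℝ} {γ : ℝ → ℂ} (h : SectLoop F 0 bm bp s γ) {z : ℂ}
    (hz : z ∉ F '' Dom 0) (hz0 : z ≠ γ 0) : z ∉ im γ := by
  rintro ⟨τ, hτ, rfl⟩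
  rcases loop_cases h hτ with h1 | ⟨σ, t, hσ, -, h1, -⟩
  · exact hz0 h1
  · rw [h1] at hz
    exact hz ⟨_, mem_Dom_ex hσ, rfl⟩

/-- points of the loop converge to the base point -/
theorem near_zero {F : ℂ → ℂ} {bm bp s : ℝ} {γ : ℝ → ℂ} (h : SectLoop F 0 bm bp s γ) {r : ℝ}
    (hr : 0 < r) : ∃ τ, 0 < τ ∧ τ ≤ 1 / 3 ∧ γ τ ∈ ball (γ 0) r := by
  have h1 : ContinuousWithinAt γ (Icc 0 1) 0 := h.cont 0 ⟨le_rfl, zero_le_one⟩
  have h2 : ∀ᶠ τ in 𝓝[Icc (0 : ℝ) 1] 0, γ τ ∈ ball (γ 0) r := h1 (ball_mem_nhds _ hr)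
  rw [eventually_nhdsWithin_iff, Metric.eventually_nhds_iff] at h2
  obtain ⟨e, he, h3⟩ := h2
  refine ⟨min (e / 2) (1 / 3), by positivity, min_le_right _ _, h3 ?_ ?_⟩
  · rw [Real.dist_eq, sub_zero, abs_of_pos (by positivity)]
    have := min_le_left (e / 2) (1 / 3 : ℝ)
    linarith
  · exact ⟨by positivity, (min_le_right _ _).trans (by norm_num)⟩

theorem nest : S_TOP → S_SECT → S_NEST := by
  intro hT hS F bm bp s bm' bp' s' γ γ' hF hinj hinf hγ hγ' hbm hbp hss hne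
  have hs : 0 < s := hγ.hgs
  have hs' : 0 < s' := hγ'.hgs
  have hb := hγ.hb
  have hb' := hγ'.hb
  have hb1 := hγ.hb1
  have hb1' := hγ'.hb1
  have hK : {z | z ∈ im γ ∨ Enc γ z} = {z | Enc γ z} := by
    ext z
    exact ⟨fun h => h.elim enc_of_im id, Or.inr⟩
  obtain ⟨hS1, -⟩ := hS F 0 bm' bp' s' γ' hF hinj hinf hγ'
  obtain ⟨-, hS2⟩ := hS F 0 bm bp s γ hF hinj hinf hγ
  -- (i)
  have hi1 : ∀ τ ∈ Icc (0 : ℝ) 1, γ τ ≠ γ 0 → γ τ ∉ im γ' ∧ Enc γ' (γ τ) := by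
    intro τ hτ h0
    rcases loop_cases hγ hτ with h1 | ⟨σ, t, hσ, hσs, h1, ht1, ht2, -⟩
    · exact absurd h1 h0
    · rw [h1]
      exact hS1 σ t hσ (by linarith) ⟨by linarith, by linarith⟩
  have hi0 : γ 0 ∉ im γ' := notin_im hγ' (zero_notin hγ) hne
  have hi2 : Enc γ' (γ 0) := by
    obtain ⟨r, hr, hb, hE⟩ := enc_loc hT hγ'.cont hγ'.closed
      (im_compact hγ'.cont).isClosed.isOpen_compl disjoint_compl_left hi0
    obtain ⟨τ, hτ0, hτ1, hτ⟩ := near_zero hγ hr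
    rw [← hE _ hτ]
    have hτI : τ ∈ Icc (0 : ℝ) 1 := ⟨hτ0.le, by linarith⟩
    by_cases h0 : γ τ = γ 0
    · exfalso
      apply zero_notin hγ
      rw [← h0, hγ.left τ ⟨hτ0.le, hτ1⟩ (by positivity)]
      exact ⟨_, mem_Dom_ex (by positivity), rfl⟩
    · exact (hi1 τ hτI h0).2
  have hi : ∀ z ∈ im γ, z ∉ im γ' ∧ Enc γ' z := by
    rintro z ⟨τ, hτ, rfl⟩
    by_cases h0 : γ τ = γ 0
    · rw [h0]
      exact ⟨hi0, hi2⟩
    · exact hi1 τ hτ h0
  -- (ii)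
  have hii1 : ∀ τ ∈ Icc (0 : ℝ) 1, γ' τ ≠ γ' 0 → ¬ Enc γ (γ' τ) := by
    intro τ hτ h0
    rcases loop_cases hγ' hτ with h1 | ⟨σ, t, hσ, hσs, h1, ht1, ht2, hcase⟩
    · exact absurd h1 h0
    · rw [h1]
      refine (hS2 σ t hσ ?_).2
      rcases hcase with h2 | h2 | h2
      · right
        rintro n ⟨hn1, hn2⟩
        rw [h2] at hn1 hn2
        have h3 : (0 : ℝ) < n := by linarith
        have h4 : (1 : ℝ) ≤ n := by exact_mod_cast (Int.cast_pos.1 h3)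
        linarith
      · right
        rintro n ⟨hn1, hn2⟩
        rw [h2] at hn1 hn2
        have h3 : (n : ℝ) < 0 := by linarith
        have h3' : n < 0 := by exact_mod_cast h3
        have h4 : (n : ℝ) ≤ -1 := by exact_mod_cast (by omega : n ≤ -1)
        linarith
      · left
        linarith
  have hii0 : γ' 0 ∉ im γ := notin_im hγ (zero_notin hγ') hne.symm
  have hii2 : ¬ Enc γ (γ' 0) := by
    obtain ⟨r, hr, hb, hE⟩ := enc_loc hT hγ.cont hγ.closed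
      (im_compact hγ.cont).isClosed.isOpen_compl disjoint_compl_left hii0
    obtain ⟨τ, hτ0, hτ1, hτ⟩ := near_zero hγ' hr
    rw [← hE _ hτ]
    have hτI : τ ∈ Icc (0 : ℝ) 1 := ⟨hτ0.le, by linarith⟩
    by_cases h0 : γ' τ = γ' 0
    · exfalso
      apply zero_notin hγ'
      rw [← h0, hγ'.left τ ⟨hτ0.le, hτ1⟩ (by positivity)]
      exact ⟨_, mem_Dom_ex (by positivity), rfl⟩
    · exact hii1 τ hτI h0
  have hii : ∀ z, Enc γ z → z ∉ im γ' := by
    rintro z hz ⟨τ, hτ, rfl⟩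
    by_cases h0 : γ' τ = γ' 0
    · rw [h0] at hz
      exact hii2 hz
    · exact hii1 τ hτ h0 hz
  -- (iii)
  have hiii : {z | Enc γ z} ∩ {z | ¬ Enc γ' z} = ∅ := by
    apply clopen_bdd
    · constructor
      · rw [← isOpen_compl_iff, Metric.isOpen_iff]
        intro z hz
        by_cases hzE : Enc γ z
        · have hz1 : Enc γ' z := by
            by_contra h
            exact hz ⟨hzE, h⟩
          obtain ⟨r, hr, hb, hE⟩ := enc_loc hT hγ'.cont hγ'.closed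
            (im_compact hγ'.cont).isClosed.isOpen_compl disjoint_compl_left (hii z hzE)
          refine ⟨r, hr, fun z' hz' => ?_⟩
          rintro ⟨-, h⟩
          exact h ((hE z' hz').2 hz1)
        · have h1 : IsOpen {z | Enc γ z}ᶜ := (enc_closed hT hγ.cont hγ.closed).isOpen_compl
          obtain ⟨r, hr, h2⟩ := Metric.isOpen_iff.1 h1 z hzE
          refine ⟨r, hr, fun z' hz' => ?_⟩
          rintro ⟨h, -⟩
          exact h2 hz' h
      · rw [Metric.isOpen_iff]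
        rintro z ⟨hz1, hz2⟩
        have hzi : z ∈ (im γ)ᶜ := fun h => hz2 (hi z h).2
        obtain ⟨r, hr, hb, hE⟩ := enc_loc hT hγ.cont hγ.closed
          (im_compact hγ.cont).isClosed.isOpen_compl disjoint_compl_left hzi
        obtain ⟨r', hr', hb', hE'⟩ := enc_loc hT hγ'.cont hγ'.closed
          (im_compact hγ'.cont).isClosed.isOpen_compl disjoint_compl_left (hii z hz1)
        refine ⟨min r r', lt_min hr hr', fun z' hz' => ⟨?_, ?_⟩⟩
        · exact (hE z' (ball_subset_ball (min_le_left _ _) hz')).2 hz1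
        · show ¬ Enc γ' z'
          rw [hE' z' (ball_subset_ball (min_le_right _ _) hz')]
          exact hz2
    · exact (enc_bdd hT hγ.cont hγ.closed).subset inter_subset_left
  rw [hK]
  refine ⟨enc_compact hT hγ.cont hγ.closed, enc_preconn hT hγ.cont hγ.closed, ?_⟩
  intro z hz
  have hz' : Enc γ z := hz.elim enc_of_im id
  refine ⟨hii z hz', ?_⟩
  by_contra h
  have : z ∈ ({z | Enc γ z} ∩ {z | ¬ Enc γ' z} : Set ℂ) := ⟨hz', h⟩
  rw [hiii] at this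
  exact this

end Pool.Agent.Y495.LC
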